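import Mathlib

set_option autoImplicit false

namespace Pool.Agent.Results.MP_07d99b_al.SurjectiveMap

open MvPolynomial

/-- There are `n ≥ 1` and a surjective polynomial map `f = (p_1, ..., p_n) : ℝ^n → ℝ^n` with the
properties (a) - (e) of the problem file; one can take `n = 3` and
`f(x, y, z) = (z - y, x y, x y z - x^3)`. The polynomial `p_i` of the file is `p (i - 1)` here. -/
theorem result : ∃ (n : ℕ) (p : Fin n → MvPolynomial (Fin n) ℝ), 1 ≤ n ∧
    -- the map is surjective
    Function.Surjective (fun x : Fin n → ℝ => fun i => eval x (p i)) ∧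
    -- (a)
    (∀ i, eval 0 (p i) = 0) ∧
    -- (b)
    (∀ i, (p i).totalDegree ≤ (i : ℕ) + 1) ∧
    -- (c)
    {x : Fin n → ℝ | ∀ i, eval x (p i) = 0}.Infinite ∧
    -- (d)
    (∀ S : Finset (Fin n), 1 ≤ S.card → S.card < n →
      S.card + 1 ≤ (S.biUnion fun i => (p i).vars).card) ∧
    -- (e)
    (∀ i, ∀ m, (p i).coeff m = 0 ∨ (p i).coeff m = 1 ∨ (p i).coeff m = -1) := by
  classical
  refine ⟨3, ![X 2 - X 1, X 0 * X 1, X 0 * X 1 * X 2 - X 0 ^ 3], by norm_num, ?_, ?_, ?_, ?_,
    ?_, ?_⟩
  · -- surjectivity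
    intro w
    have key : ∃ x y z : ℝ, z - y = w 0 ∧ x * y = w 1 ∧ x * y * z - x ^ 3 = w 2 := by
      by_cases hu : w 1 = 0
      · -- take y = 0
        obtain ⟨x, hx⟩ : ∃ x : ℝ, x ^ 3 = - w 2 := by
          have hs : ∀ c : ℝ, 0 ≤ c → ∃ x : ℝ, x ^ 3 = c := fun c hc =>
            ⟨c ^ ((1 : ℝ) / 3), by rw [← Real.rpow_natCast, ← Real.rpow_mul hc]; norm_num⟩
          rcases le_total 0 (- w 2) with h | h
          · exact hs _ h
          · obtain ⟨x, hx⟩ := hs (- - w 2) (by linarith)
            exact ⟨-x, by rw [Odd.neg_pow (by decide), hx]; ring⟩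
        exact ⟨x, 0, w 0, by ring, by rw [hu]; ring, by rw [mul_zero, zero_mul, hx]; ring⟩
      · -- y = u / x, with x > 0 a root of u^2 + w u x - x^4 = v x
        set g : ℝ → ℝ := fun x => (w 1) ^ 2 + w 0 * w 1 * x - x ^ 4 - w 2 * x with hg
        have hcont : Continuous g := by rw [hg]; fun_prop
        set B : ℝ := 1 + (w 1) ^ 2 + |w 0 * w 1 - w 2| with hB
        have hB1 : 1 ≤ B := by
          have := abs_nonneg (w 0 * w 1 - w 2)
          nlinarith [sq_nonneg (w 1)]
        have h0 : 0 < g 0 := by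
          simp only [hg]
          have : 0 < (w 1) ^ 2 := by positivity
          nlinarith
        have h1 : g B ≤ 0 := by
          simp only [hg]
          have h2 : (w 0 * w 1 - w 2) * B ≤ |w 0 * w 1 - w 2| * B :=
            mul_le_mul_of_nonneg_right (le_abs_self _) (by linarith)
          have h3 : (w 1) ^ 2 ≤ B := by
            have := abs_nonneg (w 0 * w 1 - w 2)
            linarith
          have h4 : |w 0 * w 1 - w 2| ≤ B - 1 - (w 1) ^ 2 := by linarith
          have h5 : B * B ≤ B ^ 4 := by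
            have : 1 ≤ B ^ 2 := one_le_pow₀ hB1
            nlinarith [sq_nonneg B]
          nlinarith [sq_nonneg (w 1), abs_nonneg (w 0 * w 1 - w 2)]
        obtain ⟨x, hx, hgx⟩ : ∃ x ∈ Set.Icc (0 : ℝ) B, g x = 0 :=
          intermediate_value_Icc' (by linarith) hcont.continuousOn ⟨h1, h0.le⟩
        have hx0 : x ≠ 0 := by
          rintro rfl
          exact h0.ne' hgx
        refine ⟨x, w 1 / x, w 0 + w 1 / x, by ring, by field_simp, ?_⟩
        have h6 : (w 1) ^ 2 + w 0 * w 1 * x - x ^ 4 - w 2 * x = 0 := hgx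
        field_simp
        linear_combination h6
    obtain ⟨x, y, z, h1, h2, h3⟩ := key
    refine ⟨![x, y, z], ?_⟩
    funext i
    fin_cases i
    · simpa using h1
    · simpa using h2
    · simpa using h3
  · intro i
    fin_cases i <;> simp
  · intro i
    fin_cases i
    · show (X 2 - X 1 : MvPolynomial (Fin 3) ℝ).totalDegree ≤ 0 + 1
      refine (totalDegree_sub _ _).trans ?_
      simp [totalDegree_X]
    · show (X 0 * X 1 : MvPolynomial (Fin 3) ℝ).totalDegree ≤ 1 + 1
      refine (totalDegree_mul _ _).trans ?_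
      simp [totalDegree_X]
    · show (X 0 * X 1 * X 2 - X 0 ^ 3 : MvPolynomial (Fin 3) ℝ).totalDegree ≤ 2 + 1
      refine (totalDegree_sub _ _).trans (max_le ?_ ?_)
      · refine (totalDegree_mul _ _).trans ?_
        have h := totalDegree_mul (X 0 : MvPolynomial (Fin 3) ℝ) (X 1)
        simp only [totalDegree_X] at h ⊢
        omega
      · exact (totalDegree_pow _ _).trans (by simp [totalDegree_X])
  · refine Set.infinite_of_injective_forall_mem (f := fun t : ℝ => ![0, t, t]) ?_ ?_
    · intro s t hst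
      have := congrFun hst 1
      simpa using this
    · intro t i
      fin_cases i <;> simp
  · have v0 : ({1, 2} : Finset (Fin 3)) ⊆ (X 2 - X 1 : MvPolynomial (Fin 3) ℝ).vars := by
      intro i hi
      rw [mem_vars_iff_mem_support]
      simp only [Finset.mem_insert, Finset.mem_singleton] at hi
      rcases hi with rfl | rfl
      · exact ⟨Finsupp.single 1 1, by
          rw [mem_support_iff, coeff_sub, coeff_X, coeff_X,
            if_neg (by simp [Finsupp.single_left_inj]), if_pos rfl]; norm_num, by simp⟩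
      · exact ⟨Finsupp.single 2 1, by
          rw [mem_support_iff, coeff_sub, coeff_X, coeff_X, if_pos rfl,
            if_neg (by simp [Finsupp.single_left_inj])]; norm_num, by simp⟩
    have e1 : (X 0 * X 1 : MvPolynomial (Fin 3) ℝ) =
        monomial (Finsupp.single 0 1 + Finsupp.single 1 1) 1 := by
      rw [X, X, monomial_mul]; norm_num
    have e2 : (X 0 * X 1 * X 2 - X 0 ^ 3 : MvPolynomial (Fin 3) ℝ) =
        monomial (Finsupp.single 0 1 + Finsupp.single 1 1 + Finsupp.single 2 1) 1 -
          monomial (Finsupp.single 0 3) 1 := by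
      rw [X_pow_eq_monomial, e1, X, monomial_mul]; norm_num
    have v1 : ({0, 1} : Finset (Fin 3)) ⊆ (X 0 * X 1 : MvPolynomial (Fin 3) ℝ).vars := by
      intro i hi
      rw [mem_vars_iff_mem_support, e1]
      refine ⟨Finsupp.single 0 1 + Finsupp.single 1 1, by simp, ?_⟩
      simp only [Finset.mem_insert, Finset.mem_singleton] at hi
      rcases hi with rfl | rfl <;> simp
    have v2 : ({0, 1, 2} : Finset (Fin 3)) ⊆
        (X 0 * X 1 * X 2 - X 0 ^ 3 : MvPolynomial (Fin 3) ℝ).vars := by
      intro i hi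
      rw [mem_vars_iff_mem_support, e2]
      refine ⟨Finsupp.single 0 1 + Finsupp.single 1 1 + Finsupp.single 2 1, ?_, ?_⟩
      · rw [mem_support_iff, coeff_sub, coeff_monomial, coeff_monomial, if_pos rfl, if_neg]
        · norm_num
        · intro h
          have := DFunLike.congr_fun h 1
          simp at this
      · simp only [Finset.mem_insert, Finset.mem_singleton] at hi
        rcases hi with rfl | rfl | rfl <;> simp
    intro S h1 h2
    set P : Fin 3 → MvPolynomial (Fin 3) ℝ :=
      ![X 2 - X 1, X 0 * X 1, X 0 * X 1 * X 2 - X 0 ^ 3] with hP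
    have hv : ∀ i ∈ S, (![{1, 2}, {0, 1}, {0, 1, 2}] : Fin 3 → Finset (Fin 3)) i ⊆
        S.biUnion fun i => (P i).vars := by
      intro i hi
      refine Finset.Subset.trans ?_ (Finset.subset_biUnion_of_mem (fun i => (P i).vars) hi)
      fin_cases i
      · exact v0
      · exact v1
      · exact v2
    have hW : S.biUnion (![{1, 2}, {0, 1}, {0, 1, 2}] : Fin 3 → Finset (Fin 3)) ⊆
        S.biUnion fun i => (P i).vars := Finset.biUnion_subset.mpr hv
    refine le_trans ?_ (Finset.card_le_card hW)
    clear hv hW v0 v1 v2 e1 e2 hP P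
    revert S
    decide
  · have e0 : (X 2 - X 1 : MvPolynomial (Fin 3) ℝ) =
        monomial (Finsupp.single 2 1) 1 - monomial (Finsupp.single 1 1) 1 := rfl
    have e1 : (X 0 * X 1 : MvPolynomial (Fin 3) ℝ) =
        monomial (Finsupp.single 0 1 + Finsupp.single 1 1) 1 := by
      rw [X, X, monomial_mul]; norm_num
    have e2 : (X 0 * X 1 * X 2 - X 0 ^ 3 : MvPolynomial (Fin 3) ℝ) =
        monomial (Finsupp.single 0 1 + Finsupp.single 1 1 + Finsupp.single 2 1) 1 -
          monomial (Finsupp.single 0 3) 1 := by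
      rw [X_pow_eq_monomial, X, X, X, monomial_mul, monomial_mul]; norm_num
    have key : ∀ a b m : Fin 3 →₀ ℕ,
        coeff m (monomial a 1 - monomial b 1 : MvPolynomial (Fin 3) ℝ) = 0 ∨
        coeff m (monomial a 1 - monomial b 1 : MvPolynomial (Fin 3) ℝ) = 1 ∨
        coeff m (monomial a 1 - monomial b 1 : MvPolynomial (Fin 3) ℝ) = -1 := by
      intro a b m
      rw [coeff_sub, coeff_monomial, coeff_monomial]
      by_cases h1 : a = m <;> by_cases h2 : b = m <;> simp [h1, h2]
    have key1 : ∀ a m : Fin 3 →₀ ℕ,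
        coeff m (monomial a 1 : MvPolynomial (Fin 3) ℝ) = 0 ∨
        coeff m (monomial a 1 : MvPolynomial (Fin 3) ℝ) = 1 ∨
        coeff m (monomial a 1 : MvPolynomial (Fin 3) ℝ) = -1 := by
      intro a m
      rw [coeff_monomial]
      by_cases h1 : a = m <;> simp [h1]
    rw [e2, e1, e0]
    intro i m
    fin_cases i
    · exact key _ _ m
    · exact key1 _ m
    · exact key _ _ m

end Pool.Agent.Results.MP_07d99b_al.SurjectiveMap
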